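import Pool.Agent.W792.LL.Stm

/-!
# The Green function in terms of the Cayley transform (task LL-GZ)
-/

set_option autoImplicit false

namespace Pool.Agent.W320.LL

open MeasureTheory Pool.Agent.W792.LL
open Complex (I)

/-- the complex symbol -/
noncomputable def Kc {d : ℕ} (K : C(UnitAddTorus (Fin d), ℝ)) : C(UnitAddTorus (Fin d), ℂ) where
  toFun k := (K k : ℂ)
  continuous_toFun := by fun_prop

theorem den_ne (t lam : ℝ) (z : ℂ) (hlam : 0 < lam) (hz : 0 < z.im) :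
    (t : ℂ) - lam * I - z ≠ 0 := by
  intro h
  have h1 := congrArg Complex.im h
  simp at h1
  linarith

/-- the symbol of the resolvent -/
noncomputable def rs {d : ℕ} (K : C(UnitAddTorus (Fin d), ℝ)) (lam : ℝ) (z : ℂ) (hlam : 0 < lam)
    (hz : 0 < z.im) : C(UnitAddTorus (Fin d), ℂ) where
  toFun k := ((K k : ℂ) - lam * I - z)⁻¹
  continuous_toFun := Continuous.inv₀ (by fun_prop) (fun k => den_ne (K k) lam z hlam hz)

theorem uf_dirac (lam : ℝ) (z : ℂ) (t : ℝ) :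
    uf (Measure.dirac 0) lam z t = 1 + 2 * lam * I * ((t : ℂ) - lam * I - z)⁻¹ := by
  unfold uf
  rw [integral_dirac, one_div]
  simp

theorem us_eq (hN : S_CON) {d : ℕ} (K : C(UnitAddTorus (Fin d), ℝ)) (lam : ℝ) (z : ℂ)
    (hlam : 0 < lam) (hz : 0 < z.im) :
    us (Measure.dirac 0) lam z K = 1 + (2 * lam * I : ℂ) • rs K lam z hlam hz ∧
      ‖us (Measure.dirac 0) lam z K‖ < 1 := by
  have h0 : (Measure.dirac (0 : ℝ)) (Set.Icc (-(0 : ℝ)) 0)ᶜ = 0 := by simp
  obtain ⟨hc, -, -, hb, -, -⟩ := hN (Measure.dirac 0) 0 le_rfl h0 lam hlam z hz.le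
  have hc' : Continuous fun k : UnitAddTorus (Fin d) => uf (Measure.dirac 0) lam z (K k) :=
    hc.comp K.continuous
  have hap : ∀ k, us (Measure.dirac 0) lam z K k = uf (Measure.dirac 0) lam z (K k) := by
    intro k
    unfold us toC
    rw [dif_pos hc']
    rfl
  refine ⟨?_, ?_⟩
  · ext k
    rw [hap, uf_dirac]
    rfl
  · have hD : 0 < ‖K‖ + lam + ‖z‖ := by positivity
    have hx : 1 - 4 * lam * z.im / (‖K‖ + lam + ‖z‖) ^ 2 < 1 := by
      have : 0 < 4 * lam * z.im / (‖K‖ + lam + ‖z‖) ^ 2 := by positivity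
      linarith
    have hq : Real.sqrt (1 - 4 * lam * z.im / (‖K‖ + lam + ‖z‖) ^ 2) < 1 := by
      rw [Real.sqrt_lt' one_pos]
      simpa using hx
    refine lt_of_le_of_lt ?_ hq
    rw [ContinuousMap.norm_le _ (Real.sqrt_nonneg _)]
    intro k
    rw [hap]
    have h1 := hb (K k) (‖K‖ + lam + ‖z‖) (by
      have : |K k| ≤ ‖K‖ := K.norm_coe_le_norm k
      linarith)
    exact (le_abs_self _).trans (Real.abs_le_sqrt h1)

theorem rs_mul {d : ℕ} (K : C(UnitAddTorus (Fin d), ℝ)) (lam : ℝ) (z : ℂ) (hlam : 0 < lam)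
    (hz : 0 < z.im) : rs K lam z hlam hz * (Kc K + (-(lam * I + z) : ℂ) • 1) = 1 := by
  ext k
  have h := den_ne (K k) lam z hlam hz
  show ((K k : ℂ) - lam * I - z)⁻¹ * ((K k : ℂ) + (-(lam * I + z)) * 1) = 1
  have e : (K k : ℂ) + (-(lam * I + z)) * 1 = (K k : ℂ) - lam * I - z := by ring
  rw [e, inv_mul_cancel₀ h]

theorem cay_ne (v : ℝ) : (v : ℂ) - I ≠ 0 := by
  intro h
  have h1 := congrArg Complex.im h
  simp at h1

/-- the abstract identity -/
theorem star {V : Type} [AddCommGroup V] [Module ℂ V] (T R U C : V →ₗ[ℂ] V) (lam : ℂ) (z : ℂ)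
    (hNR : ∀ u, T (R u) - (lam * I + z) • R u = u) (hU : ∀ u, U u = u + (2 * lam * I) • R u)
    (y : V) :
    T (y - U (C y)) - (lam * I + z) • (y - U (C y)) =
      -((2 * I) • (T ((2 * I)⁻¹ • (C y - y)) - z • ((2 * I)⁻¹ • (C y - y)) +
        lam • ((2 : ℂ)⁻¹ • (C y + y)))) := by
  have h2 : (2 * I : ℂ) ≠ 0 := mul_ne_zero two_ne_zero Complex.I_ne_zero
  have hTR : T (R (C y)) = C y + (lam * I + z) • R (C y) := by
    rw [← sub_eq_iff_eq_add]
    exact hNR (C y)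
  rw [hU]
  simp only [map_sub, map_add, map_smul, hTR, smul_sub, smul_add, smul_smul]
  have e1 : 2 * I * (2 * I)⁻¹ = 1 := mul_inv_cancel₀ h2
  have e2 : 2 * I * (z * (2 * I)⁻¹) = z := by
    rw [mul_comm z, ← mul_assoc, e1, one_mul]
  have e3 : 2 * I * (lam * (2 : ℂ)⁻¹) = lam * I := by ring
  rw [e1, e2, e3]
  module

/-- the final computation -/
theorem fin_calc (c0 Z lam : ℂ) (hc : c0 * (starRingEnd ℂ) c0 = 1) (hlam : lam ≠ 0) (n2 : ℂ)
    (hn : n2 = 2 - c0 - (starRingEnd ℂ) c0) (a : ℂ)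
    (ha : c0 * (Z + a * (2 * lam * I)) = Z - 1) :
    (1 - c0) * a = (1 / (2 * I * lam)) * (1 - (starRingEnd ℂ) c0 - n2 * Z) := by
  have h2 : (2 * I * lam : ℂ) ≠ 0 := mul_ne_zero (mul_ne_zero two_ne_zero Complex.I_ne_zero) hlam
  have ha' : a * (2 * I * lam) = (starRingEnd ℂ) c0 * (Z - 1) - Z := by
    linear_combination (starRingEnd ℂ) c0 * ha - (Z + a * (2 * lam * I)) * hc
  rw [one_div, ← mul_right_inj' h2, ← mul_assoc (2 * I * lam) (2 * I * lam)⁻¹,
    mul_inv_cancel₀ h2, one_mul, hn]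
  linear_combination (1 - c0) * ha' - (Z - 1) * hc

theorem memℓp_two {Γ : Type} {w : Γ → ℂ} (h : Summable fun y => ‖w y‖ ^ 2) : Memℓp w 2 := by
  apply memℓp_gen
  simpa using h

theorem summable_two {Γ : Type} (W : l2 Γ) : Summable fun y => ‖W y‖ ^ 2 := by
  have h := (lp.memℓp W).summable (by simp)
  simpa using h

theorem main (hO : S_OPR) (hD : S_DIA) (hC : S_CAY) (hN : S_CON) : S_GZ := by
  intro d K lam hlam v z hz
  obtain ⟨hus, hn⟩ := us_eq hN K lam z hlam hz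
  have hcn : ∀ x : Fin d → ℤ, ‖cay (v x)‖ = 1 := fun x => hC.1 (v x)
  obtain ⟨hDc, hDn⟩ := hD (Fin d → ℤ) (fun x => cay (v x)) (fun x => (hcn x).le)
  set m := us (Measure.dirac 0) lam z K with hm
  set r := rs K lam z hlam hz with hr
  set Cop := dia (fun x : Fin d → ℤ => cay (v x)) with hCop
  set T := opr (Kc K) with hT
  have hTa : ∀ (u : l2 (Fin d → ℤ)) x, T u x = ∑' y, hopK K (x - y) * u y :=
    fun u x => ((hO d (Kc K) (Kc K)).1 u x).2
  have hopa : ∀ m m' : C(UnitAddTorus (Fin d), ℂ), opr (m * m') = opr m * opr m' :=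
    fun m m' => (hO d m m').2.2.1
  have hops : ∀ m m' : C(UnitAddTorus (Fin d), ℂ), opr (m + m') = opr m + opr m' :=
    fun m m' => (hO d m m').2.2.2.1
  have hopc : ∀ (m : C(UnitAddTorus (Fin d), ℂ)) (a : ℂ), opr (a • m) = a • opr m :=
    fun m a => (hO d m m).2.2.2.2.1 a
  have hop1 : opr (1 : C(UnitAddTorus (Fin d), ℂ)) = 1 := (hO d 1 1).2.2.2.2.2.1
  have hmul := rs_mul K lam z hlam hz
  have hN1 : opr (Kc K + (-(lam * I + z) : ℂ) • (1 : C(UnitAddTorus (Fin d), ℂ))) =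
      T + (-(lam * I + z) : ℂ) • 1 := by
    rw [hops, hopc, hop1]
  have hRN : opr r * (T + (-(lam * I + z) : ℂ) • 1) = 1 := by
    rw [← hN1, ← hopa, hmul, hop1]
  have hNR : (T + (-(lam * I + z) : ℂ) • 1) * opr r = 1 := by
    rw [← hN1, ← hopa, mul_comm, hmul, hop1]
  have hUe : opr m = 1 + (2 * lam * I : ℂ) • opr r := by
    rw [hus, hops, hopc, hop1]
  have hNR' : ∀ u, T (opr r u) - (lam * I + z) • opr r u = u := by
    intro u
    have h := congrArg (fun A : l2 (Fin d → ℤ) →L[ℂ] l2 (Fin d → ℤ) => A u) hNR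
    have h' : T (opr r u) + (-(lam * I + z) : ℂ) • opr r u = u := h
    rwa [neg_smul, ← sub_eq_add_neg] at h'
  have hRN' : ∀ u, opr r (T u - (lam * I + z) • u) = u := by
    intro u
    have h := congrArg (fun A : l2 (Fin d → ℤ) →L[ℂ] l2 (Fin d → ℤ) => A u) hRN
    have h' : opr r (T u + (-(lam * I + z) : ℂ) • u) = u := h
    rwa [neg_smul, ← sub_eq_add_neg] at h'
  have hU' : ∀ u, opr m u = u + (2 * lam * I : ℂ) • opr r u := by
    intro u
    rw [hUe]
    rfl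
  have hnorm : ‖opr m * Cop‖ < 1 := by
    refine lt_of_le_of_lt (norm_mul_le _ _) ?_
    have h1 : ‖opr m‖ < 1 := lt_of_le_of_lt (hO d m m).2.1 hn
    nlinarith [norm_nonneg (opr m), norm_nonneg Cop]
  have hunit : IsUnit (1 - opr m * Cop) := isUnit_one_sub_of_norm_lt_one hnorm
  set Z := Ring.inverse (1 - opr m * Cop) with hZ
  have hZ1 : Z * (1 - opr m * Cop) = 1 := Ring.inverse_mul_cancel _ hunit
  have hZ2 : (1 - opr m * Cop) * Z = 1 := Ring.mul_inverse_cancel _ hunit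
  have hZ1' : ∀ u, Z (u - opr m (Cop u)) = u := by
    intro u
    have h := congrArg (fun A : l2 (Fin d → ℤ) →L[ℂ] l2 (Fin d → ℤ) => A u) hZ1
    simpa using h
  have hZ2' : ∀ u, Z u - opr m (Cop (Z u)) = u := by
    intro u
    have h := congrArg (fun A : l2 (Fin d → ℤ) →L[ℂ] l2 (Fin d → ℤ) => A u) hZ2
    simpa using h
  set δ : l2 (Fin d → ℤ) := lp.single 2 (0 : Fin d → ℤ) (1 : ℂ) with hδ
  have hδa : ∀ x, δ x = if x = 0 then 1 else 0 := by
    intro x
    rw [hδ, lp.single_apply]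
    by_cases h : x = 0
    · subst h; simp
    · simp [h]
  have hstar : ∀ y : l2 (Fin d → ℤ), T (y - opr m (Cop y)) - (lam * I + z) • (y - opr m (Cop y)) =
      -((2 * I) • (T ((2 * I)⁻¹ • (Cop y - y)) - z • ((2 * I)⁻¹ • (Cop y - y)) +
        (lam : ℂ) • ((2 : ℂ)⁻¹ • (Cop y + y)))) := by
    intro y
    exact star (T : l2 (Fin d → ℤ) →ₗ[ℂ] l2 (Fin d → ℤ)) (opr r : l2 (Fin d → ℤ) →ₗ[ℂ] l2 (Fin d → ℤ))
      (opr m : l2 (Fin d → ℤ) →ₗ[ℂ] l2 (Fin d → ℤ)) (Cop : l2 (Fin d → ℤ) →ₗ[ℂ] l2 (Fin d → ℤ))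
      (lam : ℂ) z hNR' hU' y
  have h2I : (2 * I : ℂ) ≠ 0 := mul_ne_zero two_ne_zero Complex.I_ne_zero
  have hlc : (lam : ℂ) ≠ 0 := by exact_mod_cast hlam.ne'
  have hone : ∀ y : l2 (Fin d → ℤ), (T ((2 * I)⁻¹ • (Cop y - y)) - z • ((2 * I)⁻¹ • (Cop y - y)) +
      (lam : ℂ) • ((2 : ℂ)⁻¹ • (Cop y + y)) = δ) ↔ y = Z (-((2 * I) • opr r δ)) := by
    intro y
    constructor
    · intro h
      have h1 := hstar y
      rw [h] at h1
      have h2 := hRN' (y - opr m (Cop y))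
      rw [h1, map_neg, map_smul] at h2
      rw [h2, hZ1']
    · intro h
      have h1 : y - opr m (Cop y) = -((2 * I) • opr r δ) := by rw [h]; exact hZ2' _
      have h2 := hstar y
      rw [h1] at h2
      have h3 : T (-((2 * I) • opr r δ)) - (lam * I + z) • (-((2 * I) • opr r δ)) =
          -((2 * I) • δ) := by
        rw [map_neg, map_smul, smul_neg, smul_comm (lam * I + z), sub_neg_eq_add, neg_add_eq_sub,
          ← smul_sub, ← neg_sub, smul_neg, hNR']
      rw [h3, neg_inj] at h2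
      exact (smul_right_injective _ h2I h2).symm
  have hc0 : Cop δ = cay (v 0) • δ := by
    ext x
    rw [hDc, lp.coeFn_smul, Pi.smul_apply, smul_eq_mul, hδa]
    by_cases h : x = 0
    · subst h; rfl
    · simp [h]
  have ha : cay (v 0) * (Z δ 0 + Z (opr r δ) 0 * (2 * lam * I)) = Z δ 0 - 1 := by
    have h1 := hZ1' δ
    rw [hc0, map_smul, hU', smul_add, map_sub, map_add, map_smul, map_smul, map_smul] at h1
    have h2 := congrArg (fun u : l2 (Fin d → ℤ) => u 0) h1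
    have h3 : Z δ 0 - (cay (v 0) * Z δ 0 + cay (v 0) * ((2 * lam * I) * Z (opr r δ) 0)) = δ 0 := h2
    rw [hδa, if_pos rfl] at h3
    linear_combination -h3
  have hval : ∀ y : l2 (Fin d → ℤ), y = Z (-((2 * I) • opr r δ)) →
      ((2 * I)⁻¹ • (Cop y - y)) 0 = gf K lam v z := by
    intro y hy
    have h1 : ((2 * I)⁻¹ • (Cop y - y)) 0 = (2 * I)⁻¹ * (cay (v 0) * y 0 - y 0) := by
      rw [lp.coeFn_smul, Pi.smul_apply, smul_eq_mul, lp.coeFn_sub, Pi.sub_apply, hDc]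
    have h2 : y 0 = -((2 * I) * Z (opr r δ) 0) := by
      rw [hy, map_neg, map_smul]
      rfl
    have hcc : cay (v 0) * (starRingEnd ℂ) (cay (v 0)) = 1 := by
      rw [Complex.mul_conj', hcn 0]
      simp
    have hn2 : ((‖1 - cay (v 0)‖ ^ 2 : ℝ) : ℂ) = 2 - cay (v 0) - (starRingEnd ℂ) (cay (v 0)) := by
      rw [(hC.2.2.1 (v 0)).2]
      have h4 := Complex.add_conj (cay (v 0))
      push_cast at h4 ⊢
      linear_combination h4
    rw [h1, h2]
    have h5 := fin_calc (cay (v 0)) (Z δ 0) lam hcc hlc _ hn2 (Z (opr r δ) 0) ha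
    unfold gf
    have h6 : Zf (us (Measure.dirac 0) lam z K) (fun x => cay (v x)) = Z δ 0 := rfl
    rw [h6, ← h5]
    have h7 : (2 * I)⁻¹ * (2 * I) = 1 := inv_mul_cancel₀ h2I
    linear_combination ((1 - cay (v 0)) * Z (opr r δ) 0) * h7
  have hcm : ∀ t : ℝ, cay t * ((t : ℂ) - I) = (t : ℂ) + I := by
    intro t
    unfold cay
    rw [div_mul_cancel₀ _ (cay_ne t)]
  refine ⟨?_, ?_⟩
  · set y : l2 (Fin d → ℤ) := Z (-((2 * I) • opr r δ)) with hy
    have hy1 := (hone y).2 rfl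
    refine ⟨((2 * I)⁻¹ • (Cop y - y) : l2 (Fin d → ℤ)), summable_two _, fun x => ?_⟩
    have h1 := congrArg (fun u : l2 (Fin d → ℤ) => u x) hy1
    have h2 : T ((2 * I)⁻¹ • (Cop y - y)) x - z * ((2 * I)⁻¹ • (Cop y - y)) x +
      (lam : ℂ) * ((2 : ℂ)⁻¹ • (Cop y + y)) x = δ x := h1
    have h3 : ((2 : ℂ)⁻¹ • (Cop y + y)) x = v x * ((2 * I)⁻¹ • (Cop y - y)) x := by
      rw [lp.coeFn_smul, Pi.smul_apply, lp.coeFn_smul, Pi.smul_apply, smul_eq_mul, smul_eq_mul,
        lp.coeFn_sub, Pi.sub_apply, lp.coeFn_add, Pi.add_apply, hDc]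
      have h4 : y x * (cay (v x) + 1) * I = v x * (y x * (cay (v x) - 1)) := by
        linear_combination (-(y x)) * hcm (v x)
      rw [← mul_right_inj' h2I, mul_left_comm (2 * I) (v x : ℂ), mul_inv_cancel_left₀ h2I]
      have h5 : (2 : ℂ) * 2⁻¹ = 1 := by norm_num
      linear_combination h4 + (I * (cay (v x) * y x + y x)) * h5
    rw [h3, hTa, hδa] at h2
    rw [← h2]
    push_cast
    ring
  · rintro w ⟨hs, hw⟩
    set W : l2 (Fin d → ℤ) := ⟨w, memℓp_two hs⟩ with hW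
    set W' : l2 (Fin d → ℤ) := ((lam : ℂ)⁻¹) • (δ - T W + z • W) with hW'
    have hWa : ∀ x, W x = w x := fun x => rfl
    have hW'a : ∀ x, W' x = v x * w x := by
      intro x
      have h1 : W' x = (lam : ℂ)⁻¹ * (δ x - T W x + z * W x) := rfl
      have h2 := hw x
      rw [h1, hδa, hTa, hWa, ← h2]
      have h5 : (lam : ℂ)⁻¹ * lam = 1 := inv_mul_cancel₀ hlc
      push_cast
      linear_combination (v x * w x) * h5
    set y : l2 (Fin d → ℤ) := W' - I • W with hy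
    have hya : ∀ x, y x = (v x - I) * w x := by
      intro x
      have h1 : y x = W' x - I * W x := rfl
      rw [h1, hW'a, hWa]
      ring
    have hCy : Cop y = W' + I • W := by
      ext x
      have h1 : (W' + I • W : l2 (Fin d → ℤ)) x = W' x + I * W x := rfl
      rw [hDc, h1, hya, hW'a, hWa]
      linear_combination w x * hcm (v x)
    have e1 : (2 * I)⁻¹ • (Cop y - y) = W := by
      rw [hCy, hy, show W' + I • W - (W' - I • W) = (2 * I) • W by module, smul_smul,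
        inv_mul_cancel₀ h2I, one_smul]
    have e2 : (2 : ℂ)⁻¹ • (Cop y + y) = W' := by
      rw [hCy, hy, show W' + I • W + (W' - I • W) = (2 : ℂ) • W' by module, smul_smul,
        inv_mul_cancel₀ two_ne_zero, one_smul]
    have h1 := hone y
    rw [e1, e2] at h1
    have h2 : y = Z (-((2 * I) • opr r δ)) := by
      apply h1.1
      rw [hW', smul_smul, mul_inv_cancel₀ hlc, one_smul]
      abel
    have h3 := hval y h2
    rw [e1] at h3
    exact h3

end Pool.Agent.W320.LL
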